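import Pool.Agent.U424.DQ.StmN
import Pool.Agent.N607.PW.Nrm

/-!
Project DQN (helper424), part NRMM: normalisation of the points of the quadric bundles.  The lemmas on norms
and on homogeneity are those of the part NRM of project PW.
-/

set_option autoImplicit false

namespace Pool.Agent.U140.DQ

open Pool.Agent.U424.DQ Pool.Agent.N607.PW
open Pool.Agent.N546.PN (Mon val ic)

theorem onM_smul {n r : ℕ} {d : Fin r → ℕ} {e : (Σ i : Fin r, Fin (d i)) → ℕ}
    (he : ∀ i l l', e ⟨i, l⟩ = e ⟨i, l'⟩) {K : Type} [Field K]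
    (c : (k : Σ i : Fin r, Fin (d i)) → Mon n (e k + 1) → ℤ) {X : Fin (n + 1) → K}
    {Z : (i : Fin r) → Fin (d i) → K} {t : K} {u : Fin r → K} (hu : ∀ i, u i ≠ 0)
    (h : OnM (fun k => val (ic c K k) X) Z) :
    OnM (fun k => val (ic c K k) (t • X)) (fun i => u i • Z i) := by
  intro i
  obtain ⟨h1, h2⟩ := h i
  refine ⟨smul_ne_zero (hu i) h1, ?_⟩
  have hne : Nonempty (Fin (d i)) := by
    by_contra h3
    rw [not_nonempty_iff] at h3
    exact h1 (funext fun l => h3.elim l)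
  obtain ⟨l₀⟩ := hne
  simp only [Pi.smul_apply, smul_eq_mul]
  simp only at h2
  calc ∑ l, val (ic c K ⟨i, l⟩) (t • X) * (u i * Z i l) ^ 2
      = ∑ l, t ^ (e ⟨i, l₀⟩ + 1) * u i ^ 2 * (val (ic c K ⟨i, l⟩) X * Z i l ^ 2) := by
        refine Finset.sum_congr rfl fun l _ => ?_
        have p1 : t ^ (e ⟨i, l⟩ + 1) = t ^ (e ⟨i, l₀⟩ + 1) := by rw [he i l l₀]
        rw [val_smul', p1]
        ring
    _ = 0 := by rw [← Finset.mul_sum, h2, mul_zero]

/-- Part NRMM: normalisation of the points. -/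
theorem nrmm_ (n r : ℕ) (d : Fin r → ℕ) (e : (Σ i : Fin r, Fin (d i)) → ℕ)
    (he : ∀ i l l', e ⟨i, l⟩ = e ⟨i, l'⟩) (m : ℕ) (hm : 1 ≤ m)
    (c : (k : Σ i : Fin r, Fin (d i)) → Mon n (e k + 1) → ℤ)
    (h : WAnM m (1 / (2 * (m : ℝ))) c) : WAmM m c := by
  intro X Z XR ZR hX hXR hZR
  choose tX htX0 htX1 using fun p : Nat.Primes => norm_one' (X p) (hX p).1
  choose tZ htZ0 htZ1 using fun (p : Nat.Primes) (i : Fin r) => norm_one' (Z p i) ((hX p).2 i).1
  obtain ⟨tR, htR0, htR1⟩ := norm_one' XR hXR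
  choose uR huR0 huR1 using fun i : Fin r => norm_one' (ZR i) (hZR i).1
  have hm' : 2 * (1 / (2 * (m : ℝ))) = 1 / (m : ℝ) := by
    have : (m : ℝ) ≠ 0 := by
      have : m ≠ 0 := by omega
      exact_mod_cast this
    field_simp
  obtain ⟨x, z, h1, h2, h3, h4, h5⟩ := h (fun p => tX p • X p) (fun p i => tZ p i • Z p i)
    (tR • XR) (fun i => uR i • ZR i)
    (fun p _ => ⟨htX1 p, htZ1 p, onM_smul he c (htZ0 p) (hX p).2⟩) htR1 huR1
    (onM_smul he c huR0 hZR)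
  rw [hm'] at h3 h4 h5
  exact ⟨x, z, h1, h2, fun p hp => ⟨near_smul (htX0 p) (h3 p hp).1,
    fun i => near_smul (htZ0 p i) ((h3 p hp).2 i)⟩, near_smul htR0 h4,
    fun i => near_smul (huR0 i) (h5 i)⟩

end Pool.Agent.U140.DQ
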